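import Pool.Agent.H59.LIN.Targets

/-! # Row PLV of the board lin: the basic places -/

set_option autoImplicit false

open Finset

namespace Pool.Agent.H82.LIN.PLV

open Pool.Agent.H59.LIN

theorem mem_chn (a k x : ℕ) (h1 : a ≤ x) (h2 : x < a + k) :
    (Pl.pr (x, true) (x + 1, false) : Pl (ℕ × Bool)) ∈ chn a k := by
  unfold chn
  rw [List.mem_map]
  refine ⟨x - a, List.mem_range.2 (by omega), ?_⟩
  have : a + (x - a) = x := by omega
  rw [this]

theorem mem_PLn (b : ℕ × ℕ) (x : ℕ) (hx : x + 1 < mb b) :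
    (Pl.pr (x, true) (x + 1, false) : Pl (ℕ × Bool)) ∈ PLn b := by
  unfold PLn
  split_ifs with h
  · have : mb b = b.1 + 2 := by unfold mb; omega
    simp only [List.cons_append, List.mem_cons, List.mem_append]
    right; left
    exact mem_chn _ _ _ (Nat.zero_le _) (by omega)
  · have hm : mb b = b.1 + 2 * b.2 + 2 := rfl
    simp only [List.cons_append, List.mem_cons, List.mem_append, List.append_assoc]
    right
    rcases lt_trichotomy x (b.1 - 1) with h1 | h1 | h1
    · left
      exact mem_chn _ _ _ (Nat.zero_le _) (by omega)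
    · right; right; left
      subst h1
      rfl
    · right; left
      exact mem_chn _ _ _ (by omega) (by omega)

theorem mem_first (b : ℕ × ℕ) : (Pl.si (0, false) : Pl (ℕ × Bool)) ∈ PLn b := by
  unfold PLn
  split_ifs with h
  · simp
  · simp

theorem mem_last (b : ℕ × ℕ) : (Pl.si (mb b - 1, true) : Pl (ℕ × Bool)) ∈ PLn b := by
  unfold PLn
  split_ifs with h
  · have : mb b - 1 = b.1 + 1 := by unfold mb; omega
    rw [this]
    simp
  · simp

theorem flt_map {γ γ' : Type} (f : γ → γ') (P : List (Pl γ)) :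
    flt (P.map (Pl.map f)) = (flt P).map f := by
  unfold flt
  induction P with
  | nil => rfl
  | cons a P ih =>
    rw [List.map_cons, List.flatMap_cons, List.flatMap_cons, List.map_append, ih]
    cases a <;> rfl

theorem flt_cons {γ : Type} (a : Pl γ) (P : List (Pl γ)) : flt (a :: P) = a.fl ++ flt P := rfl

theorem flt_nil {γ : Type} : flt ([] : List (Pl γ)) = [] := rfl

theorem flt_append {γ : Type} (P Q : List (Pl γ)) : flt (P ++ Q) = flt P ++ flt Q := by
  unfold flt
  exact List.flatMap_append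

theorem length_chn (a k : ℕ) : (flt (chn a k)).length = 2 * k := by
  unfold chn
  induction k with
  | zero => rfl
  | succ k ih =>
    rw [List.range_succ, List.map_append, flt_append, List.length_append, ih]
    simp only [List.map_cons, List.map_nil, flt_cons, Pl.fl, flt_nil,
      List.append_nil, List.length_cons, List.length_nil]
    omega

theorem length_PLn (b : ℕ × ℕ) : (flt (PLn b)).length = 2 * mb b := by
  unfold PLn
  split_ifs with h
  · simp only [List.cons_append, flt_cons, flt_append, List.length_append, length_chn, Pl.fl,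
      List.length_cons, List.length_nil, flt_nil]
    unfold mb
    omega
  · simp only [List.cons_append, flt_cons, flt_append, List.length_append, length_chn, Pl.fl,
      List.length_cons, List.length_nil, flt_nil]
    unfold mb
    omega

theorem fl_mem {γ : Type} {P : List (Pl γ)} {p : Pl γ} (hp : p ∈ P) {a : γ} (ha : a ∈ p.fl) :
    a ∈ flt P := List.mem_flatMap.2 ⟨p, hp, ha⟩

/-- every letter occurs -/
theorem mem_all (b : ℕ × ℕ) (c : ℕ) (hc : c < mb b) (β : Bool) : (c, β) ∈ flt (PLn b) := by
  cases β with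
  | true =>
    by_cases h : c + 1 < mb b
    · exact fl_mem (mem_PLn b c h) (by simp [Pl.fl])
    · have : c = mb b - 1 := by omega
      rw [this]
      exact fl_mem (mem_last b) (by simp [Pl.fl])
  | false =>
    by_cases h : c = 0
    · rw [h]
      exact fl_mem (mem_first b) (by simp [Pl.fl])
    · have h1 := mem_PLn b (c - 1) (by omega)
      have h2 : c - 1 + 1 = c := by omega
      rw [h2] at h1
      exact fl_mem h1 (by simp [Pl.fl])

theorem mb_pos (b : ℕ × ℕ) : 1 < mb b := by
  unfold mb
  omega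

/-- the pair of `c` and `c + 1` -/
theorem mem_PL (b : ℕ × ℕ) (c : ℕ) (hc : c + 1 < mb b) :
    (Pl.pr (⟨c, by omega⟩, true) (⟨c + 1, hc⟩, false) : Pl (Fin (mb b) × Bool)) ∈ PL b := by
  unfold PL
  rw [List.mem_map]
  refine ⟨_, mem_PLn b c hc, ?_⟩
  unfold Pl.map
  have h1 : c % mb b = c := Nat.mod_eq_of_lt (by omega)
  have h2 : (c + 1) % mb b = c + 1 := Nat.mod_eq_of_lt hc
  simp only [h1, h2]

theorem flt_PL (b : ℕ × ℕ) : flt (PL b) = (flt (PLn b)).map
    fun x => ((⟨x.1 % mb b, Nat.mod_lt _ (by simp [mb])⟩ : Fin (mb b)), x.2) := by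
  unfold PL
  rw [flt_map]

theorem mem_flt_PL (b : ℕ × ℕ) (x : Fin (mb b) × Bool) : x ∈ flt (PL b) := by
  rw [flt_PL, List.mem_map]
  refine ⟨(x.1, x.2), mem_all b x.1 x.1.2 x.2, ?_⟩
  have h1 : (x.1 : ℕ) % mb b = x.1 := Nat.mod_eq_of_lt x.1.2
  simp only [h1]

theorem length_PL (b : ℕ × ℕ) : (flt (PL b)).length = 2 * mb b := by
  rw [flt_PL, List.length_map, length_PLn]

theorem nodup_PL (b : ℕ × ℕ) : (flt (PL b)).Nodup := by
  have h1 : (flt (PL b)).toFinset = Finset.univ := by
    ext x
    simp [mem_flt_PL]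
  have h2 : (flt (PL b)).toFinset.card = (flt (PL b)).length := by
    rw [h1, length_PL, Finset.card_univ, Fintype.card_prod, Fintype.card_fin, Fintype.card_bool]
    ring
  rw [List.card_toFinset] at h2
  rw [← List.dedup_eq_self]
  exact (List.dedup_sublist _).eq_of_length h2

theorem conn_PL (b : ℕ × ℕ) : Conn (PL b) := by
  intro κ hκ
  have key : ∀ c : ℕ, ∀ hc : c < mb b, κ ⟨c, hc⟩ = κ ⟨0, by have := mb_pos b; omega⟩ := by
    intro c
    induction c with
    | zero => intro _; rfl
    | succ c ih =>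
      intro hc
      rw [← ih (by omega)]
      exact (hκ _ _ (mem_PL b c hc)).symm
  intro a _ a' _
  exact (key a.1 a.1.2).trans (key a'.1 a'.1.2).symm

end Pool.Agent.H82.LIN.PLV

namespace Pool.Agent.H82.LIN

open Pool.Agent.H59.LIN PLV

theorem pf_PLV : Pool.Agent.H59.LIN.T_PLV := by
  intro b
  refine ⟨nodup_PL b, length_PL b, conn_PL b, ?_⟩
  rintro ⟨c, hc⟩
  by_cases h : c + 1 < mb b
  · refine ⟨_, _, mem_PL b c h, ?_, Or.inl rfl⟩
    simp
  · have hb := mb_pos b
    refine ⟨_, _, mem_PL b (c - 1) (by omega), ?_, Or.inr ?_⟩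
    · simp
    · simp only [Fin.mk.injEq]
      omega

end Pool.Agent.H82.LIN
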