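import Pool.Agent.H59.LIN.Targets
import Pool.Agent.H82.LIN.PLV

/-! # Row UPR of the board lin: the pairings of products -/

set_option autoImplicit false

open Finset

namespace Pool.Agent.H82.LIN.UPR

open Pool.Agent.H59.LIN Pool.Agent.H82.LIN.PLV

theorem flt_flatMap {γ ι : Type} (L : List ι) (B : ι → List (Pl γ)) :
    flt (L.flatMap B) = L.flatMap fun i => flt (B i) := by
  induction L with
  | nil => rfl
  | cons a L ih => rw [List.flatMap_cons, List.flatMap_cons, flt_append, ih]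

theorem nodup_of_surj {α : Type} [Fintype α] [DecidableEq α] (l : List α) (h : ∀ x, x ∈ l)
    (hl : l.length = Fintype.card α) : l.Nodup := by
  have h1 : l.toFinset = Finset.univ := by
    ext x
    simp [h]
  have h2 : l.toFinset.card = l.length := by
    rw [h1, hl, Finset.card_univ]
  rw [List.card_toFinset] at h2
  rw [← List.dedup_eq_self]
  exact (List.dedup_sublist _).eq_of_length h2

section blocks

variable {r : ℕ} (μ : Fin r → ℕ × ℕ)

/-- the block embedding -/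
def jj (i : Fin r) : Fin (mb (μ i)) ↪ Fin (∑ i, mb (μ i)) :=
  ⟨fun c => finSigmaFinEquiv ⟨i, c⟩, fun a b h => by
    have := finSigmaFinEquiv.injective h
    simpa using this⟩

/-- the blocks -/
def Bl (i : Fin r) : List (Pl (Fin (∑ i, mb (μ i)) × Bool)) :=
  (PL (μ i)).map (Pl.map (rel (jj μ i)))

/-- the block of a chord -/
def oo (c : Fin (∑ i, mb (μ i))) : Fin r := (finSigmaFinEquiv.symm c).1

theorem jj_apply (i : Fin r) (c : Fin (mb (μ i))) : jj μ i c = finSigmaFinEquiv ⟨i, c⟩ := rfl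

theorem oo_jj (i : Fin r) (c : Fin (mb (μ i))) : oo μ (jj μ i c) = i := by
  rw [jj_apply]
  unfold oo
  rw [Equiv.symm_apply_apply]

theorem jj_surj (c : Fin (∑ i, mb (μ i))) : ∃ c', jj μ (oo μ c) c' = c :=
  ⟨(finSigmaFinEquiv.symm c).2, by
    exact Equiv.apply_symm_apply finSigmaFinEquiv c⟩

theorem flt_Bl (i : Fin r) : flt (Bl μ i) = (flt (PL (μ i))).map (rel (jj μ i)) := by
  unfold Bl
  rw [flt_map]

theorem mem_flt_Bl (c : Fin (∑ i, mb (μ i))) (β : Bool) : (c, β) ∈ flt (Bl μ (oo μ c)) := by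
  obtain ⟨c', hc'⟩ := jj_surj μ c
  rw [flt_Bl, List.mem_map]
  exact ⟨(c', β), mem_flt_PL _ _, by unfold rel; rw [hc']⟩

theorem oo_Bl (i : Fin r) (a : Fin (∑ i, mb (μ i)) × Bool) (ha : a ∈ flt (Bl μ i)) :
    oo μ a.1 = i := by
  rw [flt_Bl, List.mem_map] at ha
  obtain ⟨a', _, rfl⟩ := ha
  exact oo_jj μ i a'.1

theorem conn_Bl (i : Fin r) : Conn (Bl μ i) := by
  intro κ hκ a ha b hb
  rw [flt_Bl, List.mem_map] at ha hb
  obtain ⟨a', ha', rfl⟩ := ha
  obtain ⟨b', hb', rfl⟩ := hb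
  refine conn_PL (μ i) (fun c => κ (jj μ i c)) ?_ a' ha' b' hb'
  intro x y hxy
  refine hκ (rel (jj μ i) x) (rel (jj μ i) y) ?_
  unfold Bl
  rw [List.mem_map]
  exact ⟨_, hxy, rfl⟩

theorem mem_flt_P (x : Fin (∑ i, mb (μ i)) × Bool) :
    x ∈ flt ((List.finRange r).flatMap (Bl μ)) := by
  rw [flt_flatMap, List.mem_flatMap]
  exact ⟨oo μ x.1, List.mem_finRange _, mem_flt_Bl μ x.1 x.2⟩

theorem length_P : (flt ((List.finRange r).flatMap (Bl μ))).length = 2 * ∑ i, mb (μ i) := by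
  rw [flt_flatMap, List.length_flatMap]
  have h1 : (List.map (fun a => (flt (Bl μ a)).length) (List.finRange r)) =
      List.map (fun a => 2 * mb (μ a)) (List.finRange r) := by
    apply List.map_congr_left
    intro i _
    rw [flt_Bl, List.length_map, length_PL]
  rw [h1, ← List.ofFn_eq_map, List.sum_ofFn]
  exact (Finset.mul_sum _ _ _).symm

theorem nodup_P : (flt ((List.finRange r).flatMap (Bl μ))).Nodup := by
  apply nodup_of_surj _ (mem_flt_P μ)
  rw [length_P, Fintype.card_prod, Fintype.card_fin, Fintype.card_bool]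
  ring

end blocks

theorem prw_eq {d r : ℕ} (G : Fin r → List (Fin d × Bool) → ℚ) (D : CD d) :
    prw G (List.ofFn D) = ∑ κ : Fin d → Fin r, ∏ p, G p (sub D (fbr κ p)) := by
  unfold prw sub
  refine Finset.sum_congr rfl fun κ _ => Finset.prod_congr rfl fun p _ => ?_
  congr 1
  apply List.filter_congr
  intro a _
  simp [fbr]

end Pool.Agent.H82.LIN.UPR

namespace Pool.Agent.H82.LIN

open Pool.Agent.H59.LIN UPR PLV

theorem pf_UPR (hPRS : Pool.Agent.H59.LIN.T_PRS) (hALD : Pool.Agent.H59.LIN.T_ALD)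
    (hPLV : Pool.Agent.H59.LIN.T_PLV) (hCON : Pool.Agent.H59.LIN.T_CON)
    (hGEX : Pool.Agent.H59.LIN.T_GEX) (hPAV : Pool.Agent.H59.LIN.T_PAV) :
    Pool.Agent.H59.LIN.T_UPR := by
  have hx : ∀ b : ℕ × ℕ, ∃ x : CD (mb b) → ℤ, Alt x (PL b) := fun b =>
    hALD (mb b) (PL b) (hPLV b).1 (hPLV b).2.1
  choose xb hxb using hx
  refine ⟨fun b' b => ∑ D, xb b D • phi D b' univ, ?_, ?_, ?_, ?_⟩
  · intro b b' h
    exact (hPAV b b' (xb b) (hxb b)).1 h
  · intro b b' h
    exact (hPAV b b' (xb b) (hxb b)).2.1 h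
  · intro b
    exact (hPAV b b (xb b) (hxb b)).2.2 rfl
  · intro r μ d hd
    subst hd
    obtain ⟨x, hxP⟩ := hALD _ _ (nodup_P μ) (length_P μ)
    refine ⟨x, ?_⟩
    intro r' ν
    choose G hG0 hG1 hG2 using fun p : Fin r' => hGEX (∑ i, mb (μ i)) (ν p)
    have e1 : ∑ D, x D • (∏ p, phi D (ν p)) univ =
        alt (prw G) [] ((List.finRange r).flatMap (Bl μ)) := by
      rw [← hxP ℚ (prw G)]
      refine Finset.sum_congr rfl fun D _ => ?_
      rw [prw_eq, hPRS]
      congr 1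
      refine Finset.sum_congr rfl fun κ _ => Finset.prod_congr rfl fun p _ => ?_
      exact hG1 p D (fbr κ p)
    obtain ⟨c1, c2⟩ := hCON (∑ i, mb (μ i)) r r' (oo μ) (Bl μ) G (oo_Bl μ)
      (fun c => ⟨false, mem_flt_Bl μ c false⟩) (conn_Bl μ) hG0
    refine ⟨fun h => ?_, fun h => ?_⟩
    · rw [e1]
      exact c1 h
    · rw [e1, c2 h]
      refine Finset.sum_congr rfl fun σ _ => Finset.prod_congr rfl fun p _ => ?_
      exact hG2 p (μ (σ (Fin.cast h p))) (jj μ (σ (Fin.cast h p))) (xb _) (hxb _)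

end Pool.Agent.H82.LIN
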